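import Pool.Agent.H4.FV.OddT

set_option autoImplicit false

/-! Commuting pairs in the standard algebra: `S_co`. -/

namespace Pool.Agent.H308.FV

open Pool.Agent.H4.FV.Odd

/-- the support of a plane is contained in the rows of a nonzero minor -/
theorem supp_of_minor {K B : Type} [Field K] (X Y : B → K) (a b c : B)
    (h : X a * Y b - X b * Y a ≠ 0) (h1 : X a * Y c - X c * Y a = 0)
    (h2 : X b * Y c - X c * Y b = 0) : X c = 0 ∧ Y c = 0 := by
  constructor
  · have : X c * (X a * Y b - X b * Y a) = 0 := by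
      linear_combination X b * h1 - X a * h2
    exact (mul_eq_zero.1 this).resolve_right h
  · have : Y c * (X a * Y b - X b * Y a) = 0 := by
      linear_combination Y b * h1 - Y a * h2
    exact (mul_eq_zero.1 this).resolve_right h

theorem co : S_co := by
  intro p _ hp2 Γ hct x y hxy hind
  obtain ⟨X, hX⟩ : ∃ X : Bs Γ →₀ ZMod p, X = x.1 := ⟨_, rfl⟩
  obtain ⟨Y, hY⟩ : ∃ Y : Bs Γ →₀ ZMod p, Y = y.1 := ⟨_, rfl⟩
  rw [← hX, ← hY]
  have hN : IsRel (p := p) (Γ := Γ) (fun b b' => X b * Y b' - X b' * Y b) := by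
    have h1 : (Kr p Γ).mkQ (tn x.1 y.1) = 0 := by
      have h2 := congrArg Prod.snd hxy
      exact h2
    rw [Submodule.mkQ_apply] at h1
    have h3 := (Submodule.Quotient.mk_eq_zero _).1 h1
    rw [mem_Kr, ← hX, ← hY] at h3
    exact h3
  have hlin : ∀ c d : ZMod p, (c ≠ 0 ∨ d ≠ 0) → ∃ b, c * X b + d * Y b ≠ 0 := by
    intro c d hcd
    by_contra hcon
    push Not at hcon
    refine hind ![c, d] ?_ ?_
    · rcases hcd with h | h
      · exact ⟨0, by simpa using h⟩
      · exact ⟨1, by simpa using h⟩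
    · rw [hct]
      have h4 : (lcA p ![x, y] ![c, d]) = c • x + d • y := by
        simp [lcA, Fin.sum_univ_two]
      rw [h4]
      show c • x.1 + d • y.1 = 0
      rw [← hX, ← hY]
      ext b
      simpa using hcon b
  -- the minors
  have anti : ∀ b b', X b * Y b' - X b' * Y b ≠ 0 → X b' * Y b - X b * Y b' ≠ 0 := by
    intro b b' h h'
    exact h (by linear_combination -h')
  have hab : ∀ q : {q : ℕ × ℕ // Eo Γ q.1 q.2},
      X (Sum.inr (q, 0)) * Y (Sum.inr (q, 1)) - X (Sum.inr (q, 1)) * Y (Sum.inr (q, 0)) = 0 := by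
    intro q
    by_contra hne
    have hz : ∀ v : ℕ × Fin 3, X (Sum.inl v) = 0 ∧ Y (Sum.inl v) = 0 := by
      intro v
      refine supp_of_minor (fun b => X b) (fun b => Y b) (Sum.inr (q, 0)) (Sum.inr (q, 1))
        (Sum.inl v) hne ?_ ?_
      · have := hN.ve v (q, 0)
        linear_combination -this
      · have := hN.ve v (q, 1)
        linear_combination -this
    have he := hN.e q
    simp only [(hz _).1, (hz _).2] at he
    apply hne
    rw [← he]
    ring
  have hrr : ∀ q q', X (Sum.inr q) * Y (Sum.inr q') - X (Sum.inr q') * Y (Sum.inr q) = 0 := by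
    rintro ⟨q, i⟩ ⟨q', j⟩
    by_cases h : q ≠ q' ∨ i = j
    · exact hN.ee (q, i) (q', j) h
    · push Not at h
      obtain ⟨rfl, hij⟩ := h
      have hh := hab q
      fin_cases i <;> fin_cases j
      · exact absurd rfl hij
      · exact hh
      · have hh' : X (Sum.inr (q, 1)) * Y (Sum.inr (q, 0)) -
            X (Sum.inr (q, 0)) * Y (Sum.inr (q, 1)) = 0 := by
          linear_combination -hh
        exact hh'
      · exact absurd rfl hij
  have h00 : ∀ v w : ℕ, v ≤ w →
      X (Sum.inl (v, 0)) * Y (Sum.inl (w, 0)) - X (Sum.inl (w, 0)) * Y (Sum.inl (v, 0)) = 0 := by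
    intro v w hvw
    by_cases hE : Eo Γ v w
    · have := hN.e ⟨(v, w), hE⟩
      exact this.trans (hab ⟨(v, w), hE⟩)
    · exact hN.vv v w hvw hE
  have h00' : ∀ v w : ℕ,
      X (Sum.inl (v, 0)) * Y (Sum.inl (w, 0)) - X (Sum.inl (w, 0)) * Y (Sum.inl (v, 0)) = 0 := by
    intro v w
    rcases le_total v w with h | h
    · exact h00 v w h
    · linear_combination -(h00 w v h)
  -- nonzero minors are at a vertex
  have hne0 : ∀ b b', X b * Y b' - X b' * Y b ≠ 0 →
      ∃ (v : ℕ) (i : Fin 3), i ≠ 0 ∧ ((b = Sum.inl (v, 0) ∧ b' = Sum.inl (v, i)) ∨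
        (b' = Sum.inl (v, 0) ∧ b = Sum.inl (v, i))) := by
    intro b b' h
    rcases b with ⟨v, i⟩ | q
    · rcases b' with ⟨w, j⟩ | q'
      · by_cases hi : i = 0
        · by_cases hj : j = 0
          · subst hi hj
            exact absurd (h00' v w) h
          · by_cases hvw : v = w
            · subst hi hvw
              exact ⟨v, j, hj, Or.inl ⟨rfl, rfl⟩⟩
            · subst hi
              exact absurd (hN.v' v w j hj hvw) h
        · by_cases hj : j = 0
          · by_cases hvw : v = w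
            · subst hj hvw
              exact ⟨v, i, hi, Or.inr ⟨rfl, rfl⟩⟩
            · subst hj
              exact absurd (hN.v' w v i hi (Ne.symm hvw)) (anti _ _ h)
          · exact absurd (hN.v'' v w i j hi hj) h
      · exact absurd (hN.ve (v, i) q') h
    · rcases b' with w | q'
      · exact absurd (hN.ve w q) (anti _ _ h)
      · exact absurd (hrr q q') h
  -- there is a nonzero minor
  obtain ⟨b, b', hbb⟩ : ∃ b b', X b * Y b' - X b' * Y b ≠ 0 := by
    by_contra hcon
    push Not at hcon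
    obtain ⟨b0, hb0⟩ := hlin 1 0 (Or.inl one_ne_zero)
    have hX0 : X b0 ≠ 0 := by
      intro h
      apply hb0
      rw [h]
      ring
    obtain ⟨b1, hb1⟩ := hlin (-Y b0) (X b0) (Or.inr hX0)
    apply hb1
    linear_combination hcon b0 b1
  obtain ⟨v, i, hi, hvi⟩ : ∃ (v : ℕ) (i : Fin 3), i ≠ 0 ∧
      X (Sum.inl (v, 0)) * Y (Sum.inl (v, i)) - X (Sum.inl (v, i)) * Y (Sum.inl (v, 0)) ≠ 0 := by
    obtain ⟨v, i, hi, h | h⟩ := hne0 b b' hbb
    · rw [h.1, h.2] at hbb
      exact ⟨v, i, hi, hbb⟩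
    · rw [h.1, h.2] at hbb
      exact ⟨v, i, hi, anti _ _ hbb⟩
  refine ⟨v, fun c hc => ?_, ?_⟩
  · refine supp_of_minor (fun b => X b) (fun b => Y b) (Sum.inl (v, 0)) (Sum.inl (v, i)) c hvi ?_ ?_
    · by_contra h
      obtain ⟨w, j, hj, h' | h'⟩ := hne0 _ _ h
      · have e1 : v = w := by simpa using h'.1
        subst e1
        exact hc j h'.2
      · have e1 : v = w ∧ 0 = j := by simpa using h'.2
        exact hj e1.2.symm
    · by_contra h
      obtain ⟨w, j, hj, h' | h'⟩ := hne0 _ _ h
      · have e1 : v = w ∧ i = 0 := by simpa using h'.1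
        exact hi e1.2
      · have e1 : v = w ∧ i = j := by simpa using h'.2
        obtain ⟨rfl, rfl⟩ := e1
        exact hc 0 h'.1
  · have := hN.v'' v v 1 2 (by decide) (by decide)
    linear_combination this

end Pool.Agent.H308.FV
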